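import Pool.Agent.Helper20.EQ.St4

/-!
# Project EQ (MP_cb927e_an), module LOS: many hits in one class
-/

set_option autoImplicit false

open MeasureTheory Set Filter Topology
open scoped ENNReal RealInnerProductSpace

namespace Pool.Agent.Helper51.EQ

open Pool.Agent.Helper20.RG Pool.Agent.Helper20.EQ
open Pool.Agent.Helper68.LM (Pl BB Bd Av HL ft fm DQ)
open Pool.Agent.Helper68.EP (elt GapP StGPG)

private theorem los_tsum_finset {n : ℕ} (f : ℕ → ℤ → ℝ≥0∞) :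
    ∑' k : ℤ, ∑ i ∈ Finset.range n, f i k = ∑ i ∈ Finset.range n, ∑' k : ℤ, f i k :=
  Summable.tsum_finsetSum (fun _ _ => ENNReal.summable)

/-- the number of indices as a sum -/
private theorem ncard_eq (N : ℕ) (P : ℕ → Prop) [DecidablePred P] :
    ({j : ℕ | j < N ∧ P j}.ncard : ℝ) = ((Finset.range N).filter P).card := by
  rw [← Set.ncard_coe_finset]
  congr 2
  ext j
  simp

private theorem fin_lt (N : ℕ) (P : ℕ → Prop) : {j : ℕ | j < N ∧ P j}.Finite :=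
  (Set.finite_lt_nat N).subset fun _ hj => hj.1

/-- Markov for the number of large functions -/
private theorem los_mk (N : ℕ) (D : ℕ → Pl → ℝ) (hD : ∀ j < N, Continuous (D j)) (m η : ℝ)
    (hm : 0 < m) (hη : 0 < η) :
    volume {x | m ≤ ({j : ℕ | j < N ∧ η ≤ |D j x|}.ncard : ℝ)} ≤
      ENNReal.ofReal (1 / (m * η ^ 2)) * ∑ j ∈ Finset.range N, ∫⁻ x, ‖D j x‖ₑ ^ 2 := by
  classical
  have hmeas : ∀ j ∈ Finset.range N, Measurable fun x => ‖D j x‖ₑ ^ 2 := fun j hj =>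
    ((hD j (Finset.mem_range.mp hj)).measurable.enorm).pow_const 2
  have hm2 : Measurable fun x => ∑ j ∈ Finset.range N, ‖D j x‖ₑ ^ 2 :=
    Finset.measurable_fun_sum _ hmeas
  have h1 := mul_meas_ge_le_lintegral (μ := volume) hm2 (ENNReal.ofReal (m * η ^ 2))
  rw [lintegral_finsetSum _ hmeas] at h1
  have h2 : {x | m ≤ ({j : ℕ | j < N ∧ η ≤ |D j x|}.ncard : ℝ)} ⊆
      {x | ENNReal.ofReal (m * η ^ 2) ≤ ∑ j ∈ Finset.range N, ‖D j x‖ₑ ^ 2} := by
    intro x hx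
    have hx' : m ≤ ({j : ℕ | j < N ∧ η ≤ |D j x|}.ncard : ℝ) := hx
    rw [ncard_eq N (fun j => η ≤ |D j x|)] at hx'
    show ENNReal.ofReal (m * η ^ 2) ≤ ∑ j ∈ Finset.range N, ‖D j x‖ₑ ^ 2
    calc ENNReal.ofReal (m * η ^ 2)
        ≤ ENNReal.ofReal ((((Finset.range N).filter (fun j => η ≤ |D j x|)).card : ℝ) * η ^ 2) := by
          gcongr
      _ = ∑ _j ∈ (Finset.range N).filter (fun j => η ≤ |D j x|), ENNReal.ofReal (η ^ 2) := by
          rw [Finset.sum_const, nsmul_eq_mul, ENNReal.ofReal_mul (by positivity),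
            ENNReal.ofReal_natCast]
      _ ≤ ∑ j ∈ (Finset.range N).filter (fun j => η ≤ |D j x|), ‖D j x‖ₑ ^ 2 := by
          refine Finset.sum_le_sum fun j hj => ?_
          have h3 : η ≤ |D j x| := (Finset.mem_filter.mp hj).2
          rw [Real.enorm_eq_ofReal_abs, ← ENNReal.ofReal_pow (abs_nonneg _)]
          exact ENNReal.ofReal_le_ofReal (pow_le_pow_left₀ hη.le h3 2)
      _ ≤ ∑ j ∈ Finset.range N, ‖D j x‖ₑ ^ 2 :=
          Finset.sum_le_sum_of_subset (Finset.filter_subset _ _)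
  calc volume {x | m ≤ ({j : ℕ | j < N ∧ η ≤ |D j x|}.ncard : ℝ)}
      = ENNReal.ofReal (1 / (m * η ^ 2)) * (ENNReal.ofReal (m * η ^ 2) *
          volume {x | m ≤ ({j : ℕ | j < N ∧ η ≤ |D j x|}.ncard : ℝ)}) := by
        rw [← mul_assoc, ← ENNReal.ofReal_mul (by positivity),
          show 1 / (m * η ^ 2) * (m * η ^ 2) = (1 : ℝ) by field_simp, ENNReal.ofReal_one, one_mul]
    _ ≤ ENNReal.ofReal (1 / (m * η ^ 2)) * (ENNReal.ofReal (m * η ^ 2) *
          volume {x | ENNReal.ofReal (m * η ^ 2) ≤ ∑ j ∈ Finset.range N, ‖D j x‖ₑ ^ 2}) := by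
        gcongr
    _ ≤ _ := by gcongr

/-- pigeonhole for the classes -/
private theorem los_pigeon (hPS : ∀ (Zf : ℕ → ℤ → ℕ → Pl → ℝ) (u v : ℕ) (η : ℝ) (k : ℤ) (x : Pl),
      1 ≤ v → u ≤ v → 0 < η →
    {j : ℕ | j < 2 ^ u ∧ η ≤ |Zf (om v 0 0) k j x|}.ncard ≤
      ∑ b ∈ Finset.range (3 * v + 2), (Pv Zf u v η b k x).ncard)
    (Zf : ℕ → ℤ → ℕ → Pl → ℝ) (u v : ℕ) (η m : ℝ) (k : ℤ) (x : Pl)
    (hv : 1 ≤ v) (huv : u ≤ v) (hη : 0 < η)
    (hm : m ≤ ({j : ℕ | j < 2 ^ u ∧ η ≤ |Zf (om v 0 0) k j x|}.ncard : ℝ)) :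
    ∃ b ∈ Finset.range (3 * v + 2), m / (3 * v + 2) ≤ ((Pv Zf u v η b k x).ncard : ℝ) := by
  by_contra hcon
  push Not at hcon
  have h1 := hPS Zf u v η k x hv huv hη
  have h2 : ({j : ℕ | j < 2 ^ u ∧ η ≤ |Zf (om v 0 0) k j x|}.ncard : ℝ) ≤
      ∑ b ∈ Finset.range (3 * v + 2), ((Pv Zf u v η b k x).ncard : ℝ) := by
    exact_mod_cast h1
  have h3 : ∑ b ∈ Finset.range (3 * v + 2), ((Pv Zf u v η b k x).ncard : ℝ) <
      ∑ _b ∈ Finset.range (3 * v + 2), m / (3 * v + 2) := by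
    apply Finset.sum_lt_sum_of_nonempty
    · exact ⟨0, by simp⟩
    · exact hcon
  rw [Finset.sum_const, Finset.card_range, nsmul_eq_mul] at h3
  push_cast at h3
  have h4 : (3 * (v : ℝ) + 2) * (m / (3 * v + 2)) = m := by
    field_simp
  rw [h4] at h3
  linarith

/-- one class, few exotic slopes -/
private theorem los_one (u v : ℕ) (η Λ m₁ A σ Cf CW : ℝ) (K b : ℕ) (g : Pl → ℝ)
    (Zf : ℕ → ℤ → ℕ → Pl → ℝ) (G : Set Pl) (hCW : 0 < CW) (hCf : 1 ≤ Cf) (hA : 0 ≤ A)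
    (hη : 0 < η) (hΛ : 0 < Λ) (hm0 : 0 < m₁)
    (hW : ∀ k : ℤ, volume {x | x ∈ G ∧ m₁ ≤ ((Pv Zf u v η b k x).ncard : ℝ)} ≤
        ENNReal.ofReal ((1 / 2) ^ (16 * v) / (16 * Cf * Λ / η ^ 2)) *
          (∑ j ∈ Finset.range (2 ^ u), volume (Ew Zf v η b 0 (1 / 4) k j)) +
        ∑ i ∈ Finset.range (16 * v),
          ENNReal.ofReal (CW * nv u v b A σ * (64 * (16 * Cf * Λ / η ^ 2)) / m₁ ^ 3) *
            ∑ j ∈ Finset.range (2 ^ u), volume (Ew Zf v η b i (1 / 4) k j))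
    (hER : ∀ i : ℕ,
      (∑' k : ℤ, ∑ j ∈ Finset.range (2 ^ u), volume (Ew Zf v η b i (1 / 4) k j) ≤
        ENNReal.ofReal ((4 / η) ^ 2 * (Cf * (K + v + 1))) * ∫⁻ x, ‖g x‖ₑ ^ 2) ∧
      (b ≤ 3 * v → ∀ T : ℕ, 1 ≤ T →
        ∑' k : ℤ, ∑ j ∈ Finset.range (2 ^ u), volume (Ew Zf v η b i (1 / 4) k j) ≤
          ENNReal.ofReal ((4 * Ms v / η) ^ 2 *
            (16 * v * (Cf * mu u A σ ((2 : ℝ) ^ b * (1024 * (v : ℝ) ^ 2)) T))) * ∫⁻ x, ‖g x‖ₑ ^ 2))
    (B3 B4 : ℝ) (hB3 : 0 ≤ B3) (hB4 : 0 ≤ B4)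
    (h3d : (1 / 2) ^ (16 * v) / (16 * Cf * Λ / η ^ 2) * ((4 / η) ^ 2 * (Cf * (K + v + 1))) ≤ B3)
    (h4 : ∃ V : ℝ, 0 ≤ V ∧ (V = (4 / η) ^ 2 * (Cf * (K + v + 1)) ∨ (b ≤ 3 * v ∧ ∃ T : ℕ, 1 ≤ T ∧
        V = (4 * Ms v / η) ^ 2 * (16 * v * (Cf * mu u A σ ((2 : ℝ) ^ b * (1024 * (v : ℝ) ^ 2)) T)))) ∧
      16 * v * (CW * nv u v b A σ * (64 * (16 * Cf * Λ / η ^ 2)) / m₁ ^ 3) * V ≤ B4) :
    ∑' k : ℤ, volume {x | x ∈ G ∧ m₁ ≤ ((Pv Zf u v η b k x).ncard : ℝ)} ≤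
      ENNReal.ofReal (B3 + B4) * ∫⁻ x, ‖g x‖ₑ ^ 2 := by
  obtain ⟨V, hV0, hV, h4'⟩ := h4
  -- the bound for the windows
  have hwin : ∀ i : ℕ, ∑' k : ℤ, ∑ j ∈ Finset.range (2 ^ u), volume (Ew Zf v η b i (1 / 4) k j) ≤
      ENNReal.ofReal V * ∫⁻ x, ‖g x‖ₑ ^ 2 := by
    intro i
    obtain ⟨hE1, hE2⟩ := hER i
    rcases hV with hV | ⟨hb3, T, hT, hV⟩
    · rw [hV]; exact hE1
    · rw [hV]; exact hE2 hb3 T hT
  have hwin0 : ∑' k : ℤ, ∑ j ∈ Finset.range (2 ^ u), volume (Ew Zf v η b 0 (1 / 4) k j) ≤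
      ENNReal.ofReal ((4 / η) ^ 2 * (Cf * (K + v + 1))) * ∫⁻ x, ‖g x‖ₑ ^ 2 := (hER 0).1
  have hns0 : 0 ≤ nv u v b A σ := by
    unfold nv
    positivity
  set D : ℝ := 16 * Cf * Λ / η ^ 2 with hD
  have hD0 : 0 < D := by
    rw [hD]
    have : 0 < Cf := by linarith
    positivity
  set c1' : ℝ := (1 / 2) ^ (16 * v) / D with hc1
  set c2' : ℝ := CW * nv u v b A σ * (64 * D) / m₁ ^ 3 with hc2
  have hc1' : 0 ≤ c1' := by rw [hc1]; positivity
  have hc2' : 0 ≤ c2' := by rw [hc2]; positivity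
  calc ∑' k : ℤ, volume {x | x ∈ G ∧ m₁ ≤ ((Pv Zf u v η b k x).ncard : ℝ)}
      ≤ ∑' k : ℤ, (ENNReal.ofReal c1' *
          (∑ j ∈ Finset.range (2 ^ u), volume (Ew Zf v η b 0 (1 / 4) k j)) +
        ∑ i ∈ Finset.range (16 * v), ENNReal.ofReal c2' *
            ∑ j ∈ Finset.range (2 ^ u), volume (Ew Zf v η b i (1 / 4) k j)) :=
        ENNReal.tsum_le_tsum hW
    _ = ENNReal.ofReal c1' * (∑' k : ℤ, ∑ j ∈ Finset.range (2 ^ u),
          volume (Ew Zf v η b 0 (1 / 4) k j)) +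
        ∑ i ∈ Finset.range (16 * v), ENNReal.ofReal c2' *
            ∑' k : ℤ, ∑ j ∈ Finset.range (2 ^ u), volume (Ew Zf v η b i (1 / 4) k j) := by
        rw [ENNReal.tsum_add, ENNReal.tsum_mul_left]
        exact congrArg₂ (· + ·) rfl ((los_tsum_finset (n := 16 * v) (fun i k => ENNReal.ofReal c2' *
            ∑ j ∈ Finset.range (2 ^ u), volume (Ew Zf v η b i (1 / 4) k j))).trans
          (Finset.sum_congr rfl fun i _ => ENNReal.tsum_mul_left))
    _ ≤ ENNReal.ofReal c1' * (ENNReal.ofReal ((4 / η) ^ 2 * (Cf * (K + v + 1))) *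
          ∫⁻ x, ‖g x‖ₑ ^ 2) +
        ∑ _i ∈ Finset.range (16 * v), ENNReal.ofReal c2' * (ENNReal.ofReal V *
          ∫⁻ x, ‖g x‖ₑ ^ 2) := by
        refine add_le_add (mul_le_mul' le_rfl hwin0) ?_
        exact Finset.sum_le_sum fun i _ => mul_le_mul' le_rfl (hwin i)
    _ = (ENNReal.ofReal (c1' * ((4 / η) ^ 2 * (Cf * (K + v + 1)))) +
          ENNReal.ofReal (16 * v * c2' * V)) * ∫⁻ x, ‖g x‖ₑ ^ 2 := by
        rw [Finset.sum_const, Finset.card_range, nsmul_eq_mul, add_mul]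
        congr 1
        · rw [← mul_assoc, ENNReal.ofReal_mul hc1']
        · rw [← mul_assoc, ← mul_assoc]
          congr 1
          rw [ENNReal.ofReal_mul (by positivity), ENNReal.ofReal_mul (by positivity)]
          congr 2
          rw [← ENNReal.ofReal_natCast]
          push_cast
          rfl
    _ ≤ (ENNReal.ofReal B3 + ENNReal.ofReal B4) * ∫⁻ x, ‖g x‖ₑ ^ 2 := by
        gcongr
    _ = _ := by
        rw [ENNReal.ofReal_add hB3 hB4]

/-- `Fam` is monotone in the constant -/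
private theorem fam_mono {u : ℕ} {Cf Cf' : ℝ} {K : ℕ} {A σ : ℝ} {s : ℕ → ℝ} {g : Pl → ℝ}
    {Zf : ℕ → ℤ → ℕ → Pl → ℝ} (h : Fam u Cf K A σ s g Zf) (hC : Cf ≤ Cf') (hA : 0 ≤ A) :
    Fam u Cf' K A σ s g Zf := by
  refine ⟨h.one, h.cont, h.inv, ?_, ?_, ?_, ?_⟩
  · intro W k x
    refine (h.lb W k x).trans ?_
    refine mul_le_mul' (ENNReal.ofReal_le_ofReal hC) (lintegral_mono_set ?_)
    rintro y ⟨h1, h2⟩
    have h3 : Cf * (2 : ℝ) ^ (k + (W : ℤ)) ≤ Cf' * (2 : ℝ) ^ (k + (W : ℤ)) :=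
      mul_le_mul_of_nonneg_right hC (by positivity)
    exact ⟨h1.trans h3, h2.trans h3⟩
  · intro W
    refine (h.all W).trans ?_
    gcongr
  · intro W w w' T h1 h2 h3 h4 h5 h6
    refine (h.dif W w w' T h1 h2 h3 h4 h5 h6).trans ?_
    gcongr
  · intro W
    refine (h.tot W).trans ?_
    gcongr

private theorem loc_mono {Cf Cf' Λ : ℝ} {g : Pl → ℝ} {x : Pl} (h : Loc Cf' Λ g x) (hC : Cf ≤ Cf') :
    Loc Cf Λ g x := by
  intro k
  refine le_trans (lintegral_mono_set ?_) (h k)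
  rintro y ⟨h1, h2⟩
  have h3 : Cf * (2 : ℝ) ^ k ≤ Cf' * (2 : ℝ) ^ k :=
    mul_le_mul_of_nonneg_right hC (by positivity)
  exact ⟨h1.trans h3, h2.trans h3⟩

/-- the number `KA` -/
private theorem ka_le (A p : ℝ) (hA : 0 < A) (hp : 2 < p) (u : ℕ) :
    (KA (A ^ (1 / p)) p u : ℝ) ≤ (A + 2) * (2 : ℝ) ^ (p * u) := by
  have hp0 : 0 < p := by linarith
  unfold KA
  have h1 : (A ^ (1 / p) * (2 : ℝ) ^ u) ^ p = A * (2 : ℝ) ^ (p * u) := by
    rw [Real.mul_rpow (by positivity) (by positivity), ← Real.rpow_mul hA.le,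
      one_div_mul_cancel hp0.ne', Real.rpow_one, ← Real.rpow_natCast 2 u,
      ← Real.rpow_mul (by norm_num), mul_comm (u : ℝ) p]
  have h2 := Nat.ceil_lt_add_one (a := (A ^ (1 / p) * (2 : ℝ) ^ u) ^ p) (by positivity)
  push_cast
  rw [h1] at h2 ⊢
  have h3 : (u : ℝ) + 2 ≤ 2 * (2 : ℝ) ^ u := by
    have : u + 1 ≤ 2 ^ u := Nat.lt_two_pow_self
    have h4 : ((u : ℝ) + 1) ≤ (2 : ℝ) ^ u := by exact_mod_cast this
    have h5 : (1 : ℝ) ≤ (2 : ℝ) ^ u := one_le_pow₀ (by norm_num)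
    linarith
  have h4 : (2 : ℝ) ^ u ≤ (2 : ℝ) ^ (p * u) := by
    rw [← Real.rpow_natCast 2 u]
    apply Real.rpow_le_rpow_of_exponent_le (by norm_num)
    have : (0 : ℝ) ≤ u := Nat.cast_nonneg u
    nlinarith
  linarith

theorem hLOS (hVL : StVL) (hWCV : StWCV) (hNVA : StNVA) (hNVB : StNVB) (hNVC : StNVC)
    (hNVD : StNVD) (hDFZ : StDFZ) (hFAM : StFAM) (hSYS : StSYS) (hGPG : StGPG) : StLOS := by
  intro φ τ A p c hGr hA hGap hp2 hp3 Cρ
  have hp0 : 0 < p := by linarith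
  set A' : ℝ := A ^ (1 / p) with hA'
  have hA'0 : 0 < A' := by rw [hA']; positivity
  have hgap : Gap A' p τ := hGPG τ A p hA hp0 hGap
  obtain ⟨Cf0, hCf0, hfam⟩ := hFAM 200 (‖c‖ + |φ 0| + 3) (by norm_num)
  obtain ⟨CD, hCD, hdfz⟩ := hDFZ 200 (by norm_num)
  set Cf : ℝ := Cf0 + CD + A + 2 with hCfdef
  have hCf : 1 ≤ Cf := by linarith
  have hCf0' : 0 ≤ Cf := by linarith
  obtain ⟨t1, C1, hC1, h1⟩ := hNVA Cf A' p Cρ hCf hA'0.le hp2 hp3
  obtain ⟨t2, C2, hC2, h2⟩ := hNVB Cf A' p Cρ hCf hA'0.le hp2 hp3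
  obtain ⟨t3, C3, hC3, h3⟩ := hNVC Cf A' p Cρ hCf hA'0.le hp2 hp3
  obtain ⟨CW, hCW, hW⟩ := hWCV
  obtain ⟨t4, C4, hC4, h4⟩ := hNVD Cf A' p CW Cρ hCf hA'0.le hp2 hp3 hCW
  obtain ⟨hPS, hVL2⟩ := hVL
  have hdl : 0 < dl p := by
    unfold dl
    linarith
  refine ⟨Cf + (3 * Cρ + 5) * (C1 + C2 + C3 + C4), t1 + t2 + t3 + t4, ?_, ?_⟩
  · have : 0 ≤ (3 * (Cρ : ℝ) + 5) * (C1 + C2 + C3 + C4) := by positivity
    linarith
  intro u t ρ g G ht hu hut hρ hg hg01 hG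
  have hCle : Cf ≤ Cf + (3 * Cρ + 5) * (C1 + C2 + C3 + C4) := by
    have : 0 ≤ (3 * (Cρ : ℝ) + 5) * (C1 + C2 + C3 + C4) := by positivity
    linarith
  by_cases hcase : (1 - e1 p) * t ≤ u
  swap
  · -- the sets are empty
    have hempty : ∀ k : ℤ, volume {x | x ∈ G ∧ (2 : ℝ) ^ ((1 - e1 p) * t) ≤
        ((Hh c φ τ u ρ k g x).ncard : ℝ)} = 0 := by
      intro k
      have : {x | x ∈ G ∧ (2 : ℝ) ^ ((1 - e1 p) * t) ≤ ((Hh c φ τ u ρ k g x).ncard : ℝ)} = ∅ := by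
        ext x
        simp only [Set.mem_ofPred_eq, mem_empty_iff_false, iff_false]
        rintro ⟨-, hx⟩
        push Not at hcase
        have h5 : (2 : ℝ) ^ (u : ℝ) < (2 : ℝ) ^ ((1 - e1 p) * t) :=
          Real.rpow_lt_rpow_of_exponent_lt (by norm_num) hcase
        rw [Real.rpow_natCast] at h5
        have h6 : (Hh c φ τ u ρ k g x).ncard ≤ 2 ^ u := by
          have h7 : Hh c φ τ u ρ k g x ⊆ ((Finset.range (2 ^ u) : Finset ℕ) : Set ℕ) := by
            intro j hj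
            simp only [Finset.coe_range, mem_Iio]
            exact hj.1
          calc (Hh c φ τ u ρ k g x).ncard ≤ ((Finset.range (2 ^ u) : Finset ℕ) : Set ℕ).ncard :=
                Set.ncard_le_ncard h7 (Finset.finite_toSet _)
            _ = 2 ^ u := by rw [Set.ncard_coe_finset, Finset.card_range]
        have h8 : ((Hh c φ τ u ρ k g x).ncard : ℝ) ≤ (2 : ℝ) ^ u := by exact_mod_cast h6
        linarith
      rw [this, measure_empty]
    rw [tsum_congr hempty, tsum_zero]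
    exact bot_le
  -- the main case
  set v : ℕ := (Cρ + 1) * u with hvdef
  have huv : u ≤ v := by
    rw [hvdef]
    nlinarith
  have hv2 : 2 ≤ v := hu.trans huv
  have hv1 : 1 ≤ v := by omega
  have hv0 : (0 : ℝ) < v := by exact_mod_cast hv1
  have hv1' : (1 : ℝ) ≤ v := by exact_mod_cast hv1
  set η : ℝ := (2 : ℝ) ^ (-((ρ : ℤ) + 2)) with hηdef
  have hη : 0 < η := by rw [hηdef]; positivity
  set m : ℝ := (2 : ℝ) ^ ((1 - e1 p) * t) with hmdef
  have hm : 0 < m := by rw [hmdef]; positivity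
  set m₁ : ℝ := m / (2 * (3 * v + 2)) with hm₁def
  have hm₁ : 0 < m₁ := by rw [hm₁def]; positivity
  have hNu : Nu p Cρ u v t ρ η m₁ := ⟨hu, rfl, hut, hcase, hρ, rfl, rfl⟩
  set Λ : ℝ := (4 : ℝ) ^ ((t : ℤ) - u - ρ) with hΛdef
  have hΛ : 0 < Λ := by rw [hΛdef]; positivity
  obtain ⟨-, hsys⟩ := hSYS φ τ A' p c hGr hgap hA'0 hp0 u (by omega)
  have hsys := hsys hu
  set K : ℕ := KA A' p u with hKdef
  have hK : (K : ℝ) ≤ Cf * (2 : ℝ) ^ (p * u) := by
    refine (ka_le A p hA hp2 u).trans ?_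
    apply mul_le_mul_of_nonneg_right _ (by positivity)
    linarith
  set s : ℕ → ℝ := fun j => τ (tm u j) with hs
  set Zf : ℕ → ℤ → ℕ → Pl → ℝ := fun W k j => Zc c φ τ u W k j g with hZf
  have hF0 : Fam u Cf0 K A' p s g Zf := hfam u _ _ _ _ K A' p hsys hA'0.le g hg hg01
  have hF : Fam u Cf K A' p s g Zf := fam_mono hF0 (by linarith) hA'0.le
  have hS : Slo u A' p s := ⟨hsys.slope, hsys.sep⟩
  have hG' : ∀ x ∈ G, Loc Cf Λ g x := fun x hx => loc_mono (hG x hx) hCle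
  obtain ⟨-, -, hMK, hER⟩ := hVL2 u v Cf K A' p s g Zf η hF (by omega) huv hCf hA'0.le hη
  set B : ℝ := (2 : ℝ) ^ tg p u t ρ with hB
  have hB0 : 0 < B := by rw [hB]; positivity
  have hM1 : 1 ≤ Ms v := by
    unfold Ms
    nlinarith
  obtain ⟨T0, hT0, hNA⟩ := h1 u v t ρ η m₁ (by omega) hNu
  -- every class
  have hcl : ∀ b ∈ Finset.range (3 * v + 2),
      ∑' k : ℤ, volume {x | x ∈ G ∧ m₁ ≤ ((Pv Zf u v η b k x).ncard : ℝ)} ≤
        ENNReal.ofReal ((C1 + C2 + C3 + C4) * B) * ∫⁻ x, ‖g x‖ₑ ^ 2 := by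
    intro b hb
    rw [Finset.mem_range] at hb
    have hmk : ∀ (T : ℕ) (B' : ℝ), b ≤ 3 * v → 1 ≤ T →
        1 / m₁ * (2 * Ms v / η) ^ 2 *
          (16 * v * (Cf * mu u A' p ((2 : ℝ) ^ b * (1024 * (v : ℝ) ^ 2)) T)) ≤ B' →
        ∑' k : ℤ, volume {x | x ∈ G ∧ m₁ ≤ ((Pv Zf u v η b k x).ncard : ℝ)} ≤
          ENNReal.ofReal B' * ∫⁻ x, ‖g x‖ₑ ^ 2 := by
      intro T B' hb' hT hB'
      calc ∑' k : ℤ, volume {x | x ∈ G ∧ m₁ ≤ ((Pv Zf u v η b k x).ncard : ℝ)}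
          ≤ ∑' k : ℤ, volume {x | m₁ ≤ ((Pv Zf u v η b k x).ncard : ℝ)} :=
            ENNReal.tsum_le_tsum fun k => measure_mono fun x hx => hx.2
        _ ≤ _ := hMK m₁ b T hm₁ hb' hT
        _ ≤ _ := by gcongr
    rcases Nat.eq_zero_or_pos b with hb0 | hb0
    · subst hb0
      refine hmk T0 _ (by omega) hT0 (hNA.trans ?_)
      apply mul_le_mul_of_nonneg_right _ hB0.le
      linarith
    · by_cases hns : m₁ < 200 * nv u v b A' p
      · have hb3 : b ≤ 3 * v := by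
          by_contra hcon
          have hbe : b = 3 * v + 1 := by omega
          obtain ⟨-, -, -, -, h6, -⟩ := h3 u v t ρ η m₁ K (by omega) hNu (Nat.cast_nonneg K) hK
          rw [hbe] at hns
          linarith
        obtain ⟨T, hT, hBB⟩ := h2 u v t ρ η m₁ b (by omega) hNu hb0 hb3 hns
        refine hmk T _ hb3 hT (hBB.trans ?_)
        apply mul_le_mul_of_nonneg_right _ hB0.le
        linarith
      · push Not at hns
        obtain ⟨h3a, h3b, h3c, h3e, -, h3d⟩ :=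
          h3 u v t ρ η m₁ K (by omega) hNu (Nat.cast_nonneg K) hK
        have h4' := h4 u v t ρ η m₁ K b (by omega) hNu (Nat.cast_nonneg K) hK hb0 (by omega)
        have hWk : ∀ k : ℤ, volume {x | x ∈ G ∧ m₁ ≤ ((Pv Zf u v η b k x).ncard : ℝ)} ≤
            ENNReal.ofReal ((1 / 2) ^ (16 * v) / (16 * Cf * Λ / η ^ 2)) *
              (∑ j ∈ Finset.range (2 ^ u), volume (Ew Zf v η b 0 (1 / 4) k j)) +
            ∑ i ∈ Finset.range (16 * v),
              ENNReal.ofReal (CW * nv u v b A' p * (64 * (16 * Cf * Λ / η ^ 2)) / m₁ ^ 3) *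
                ∑ j ∈ Finset.range (2 ^ u), volume (Ew Zf v η b i (1 / 4) k j) := fun k =>
          hW u v Cf K A' p s g Zf η Λ m₁ b k G hF hCf hA'0.le hS hg hg01 hG' (by omega) huv hv2
            h3c h3e hΛ hb0 hns h3a h3b
        refine (los_one u v η Λ m₁ A' p Cf CW K b g Zf G hCW hCf hA'0.le hη hΛ hm₁ hWk
          (fun i => hER b i) (C3 * B) (C4 * B) (by positivity) (by positivity) h3d h4').trans ?_
        gcongr ENNReal.ofReal ?_ * _
        have : 0 ≤ (C1 + C2) * B := by positivity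
        linarith
  -- the differences
  have hw : om v 0 0 = 1024 * v ^ 2 := by
    unfold om
    ring
  have hdiff : ∑' k : ℤ, volume {x | m / 2 ≤ ({j : ℕ | j < 2 ^ u ∧
      η ≤ |Zf (om v 0 0) k j x - Zf 0 k j x|}.ncard : ℝ)} ≤
      ENNReal.ofReal (C1 * B) * ∫⁻ x, ‖g x‖ₑ ^ 2 := by
    have hd := hdfz u s (ce c φ u) (mm τ u) (fun j => mm τ (u - 1) (j / 2)) _ K A' p hsys hA'0.le
      (om v 0 0) T0 g hg hT0
    have hMD : ∀ (k : ℤ) (j : ℕ) (x : Pl), ‖Zf (om v 0 0) k j x - Zf 0 k j x‖ₑ ≤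
        MD (s j) (ce c φ u j) (mm τ u j) (mm τ (u - 1) (j / 2)) (om v 0 0) k g x := by
      intro k j x
      unfold MD
      exact Finset.le_sup (f := fun w => ‖Z (s j) (ce c φ u j) (mm τ u j) (mm τ (u - 1) (j / 2))
        ((2 : ℝ) ^ w) k g x - Z (s j) (ce c φ u j) (mm τ u j) (mm τ (u - 1) (j / 2))
        ((2 : ℝ) ^ 0) k g x‖ₑ) (Finset.mem_range.mpr (Nat.lt_succ_self _))
    calc ∑' k : ℤ, volume {x | m / 2 ≤ ({j : ℕ | j < 2 ^ u ∧
          η ≤ |Zf (om v 0 0) k j x - Zf 0 k j x|}.ncard : ℝ)}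
        ≤ ∑' k : ℤ, ENNReal.ofReal (1 / (m / 2 * η ^ 2)) * ∑ j ∈ Finset.range (2 ^ u),
            ∫⁻ x, ‖Zf (om v 0 0) k j x - Zf 0 k j x‖ₑ ^ 2 := by
          refine ENNReal.tsum_le_tsum fun k => ?_
          exact los_mk (2 ^ u) (fun j x => Zf (om v 0 0) k j x - Zf 0 k j x)
            (fun j hj => (hF.cont _ _ _ hj).sub (hF.cont _ _ _ hj)) (m / 2) η (by positivity) hη
      _ ≤ ∑' k : ℤ, ENNReal.ofReal (1 / (m / 2 * η ^ 2)) * ∑ j ∈ Finset.range (2 ^ u),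
            ∫⁻ x, MD (s j) (ce c φ u j) (mm τ u j) (mm τ (u - 1) (j / 2)) (om v 0 0) k g x ^ 2 := by
          refine ENNReal.tsum_le_tsum fun k => ?_
          refine mul_le_mul' le_rfl (Finset.sum_le_sum fun j _ => lintegral_mono fun x => ?_)
          exact pow_le_pow_left' (hMD k j x) 2
      _ ≤ ENNReal.ofReal (1 / (m / 2 * η ^ 2)) * (ENNReal.ofReal (CD * (T0 + u + 1 +
            ((om v 0 0 : ℕ) + 1) * (1 + (2 : ℝ) ^ u * (A' * (T0 : ℝ) ^ (-(1 / p)))))) *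
              ∫⁻ x, ‖g x‖ₑ ^ 2) := by
          rw [ENNReal.tsum_mul_left]
          gcongr
      _ = ENNReal.ofReal (1 / (m / 2 * η ^ 2) * (CD * (T0 + u + 1 +
            ((om v 0 0 : ℕ) + 1) * (1 + (2 : ℝ) ^ u * (A' * (T0 : ℝ) ^ (-(1 / p))))))) *
              ∫⁻ x, ‖g x‖ₑ ^ 2 := by
          rw [← mul_assoc, ← ENNReal.ofReal_mul (by positivity)]
      _ ≤ _ := by
          gcongr ENNReal.ofReal ?_ * _
          refine le_trans ?_ hNA
          rw [hw]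
          push_cast
          set X : ℝ := (2 : ℝ) ^ u * (A' * (T0 : ℝ) ^ (-(1 / p))) with hX
          have hX0 : 0 ≤ X := by rw [hX]; positivity
          set Wv : ℝ := 1024 * (v : ℝ) ^ 2 with hWv
          have hWv1 : (1 : ℝ) ≤ Wv := by rw [hWv]; nlinarith
          have huW : (u : ℝ) + 1 ≤ Wv := by
            have : (u : ℝ) ≤ v := by exact_mod_cast huv
            rw [hWv]
            nlinarith
          have hmu : mu u A' p ((2 : ℝ) ^ 0 * Wv) T0 = T0 + Wv * (1 + X) := by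
            unfold mu
            rw [pow_zero, one_mul]
          rw [hmu]
          have hT0' : (0 : ℝ) ≤ T0 := Nat.cast_nonneg T0
          have e1' : (T0 : ℝ) + u + 1 + (Wv + 1) * (1 + X) ≤ 3 * (T0 + Wv * (1 + X)) := by
            nlinarith
          have e2' : 1 / (m / 2 * η ^ 2) ≤ 1 / m₁ * (2 * Ms v / η) ^ 2 := by
            have f1 : 1 / (m / 2 * η ^ 2) = 1 / (m / 2) * (1 / η) ^ 2 := by
              field_simp
            rw [f1]
            have f2 : 1 / (m / 2) ≤ 1 / m₁ := by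
              apply one_div_le_one_div_of_le hm₁
              rw [hm₁def]
              apply div_le_div_of_nonneg_left hm.le (by norm_num)
              linarith
            have f3 : 1 / η ≤ 2 * Ms v / η := by
              apply div_le_div_of_nonneg_right _ hη.le
              linarith
            have f4 : (0 : ℝ) ≤ 1 / η := by positivity
            gcongr
          have e3' : CD * (3 * (T0 + Wv * (1 + X))) ≤ 16 * v * (Cf * (T0 + Wv * (1 + X))) := by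
            have f5 : 0 ≤ (T0 : ℝ) + Wv * (1 + X) := by positivity
            have f6 : CD * 3 ≤ 16 * v * Cf := by
              have : CD ≤ Cf := by linarith
              nlinarith
            calc CD * (3 * (T0 + Wv * (1 + X))) = (CD * 3) * (T0 + Wv * (1 + X)) := by ring
              _ ≤ (16 * v * Cf) * (T0 + Wv * (1 + X)) := by gcongr
              _ = _ := by ring
          calc 1 / (m / 2 * η ^ 2) * (CD * ((T0 : ℝ) + u + 1 + (Wv + 1) * (1 + X)))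
              ≤ (1 / m₁ * (2 * Ms v / η) ^ 2) * (CD * (3 * (T0 + Wv * (1 + X)))) := by
                gcongr
            _ ≤ _ := by gcongr
  -- the sum
  have hthr : (2 : ℝ) ^ (-((ρ : ℤ) + 1)) = 2 * η := by
    rw [hηdef, show (-((ρ : ℤ) + 1)) = -((ρ : ℤ) + 2) + 1 by ring, zpow_add_one₀ (by norm_num)]
    ring
  have hsub : ∀ k : ℤ, {x | x ∈ G ∧ m ≤ ((Hh c φ τ u ρ k g x).ncard : ℝ)} ⊆
      {x | m / 2 ≤ ({j : ℕ | j < 2 ^ u ∧
        η ≤ |Zf (om v 0 0) k j x - Zf 0 k j x|}.ncard : ℝ)} ∪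
      ⋃ b ∈ Finset.range (3 * v + 2), {x | x ∈ G ∧ m₁ ≤ ((Pv Zf u v η b k x).ncard : ℝ)} := by
    rintro k x ⟨hxG, hx⟩
    by_cases h5 : m / 2 ≤ ({j : ℕ | j < 2 ^ u ∧
        η ≤ |Zf (om v 0 0) k j x - Zf 0 k j x|}.ncard : ℝ)
    · exact Or.inl h5
    right
    push Not at h5
    have h6 : Hh c φ τ u ρ k g x ⊆ {j : ℕ | j < 2 ^ u ∧
        η ≤ |Zf (om v 0 0) k j x - Zf 0 k j x|} ∪
        {j : ℕ | j < 2 ^ u ∧ η ≤ |Zf (om v 0 0) k j x|} := by
      intro j hj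
      obtain ⟨hj1, hj2⟩ := hj
      rw [hthr] at hj2
      by_cases h7 : η ≤ |Zf (om v 0 0) k j x - Zf 0 k j x|
      · exact Or.inl ⟨hj1, h7⟩
      · right
        push Not at h7
        refine ⟨hj1, ?_⟩
        have h8 : |Zf 0 k j x| ≤ |Zf (om v 0 0) k j x| + |Zf (om v 0 0) k j x - Zf 0 k j x| := by
          have h9 : Zf 0 k j x = Zf (om v 0 0) k j x - (Zf (om v 0 0) k j x - Zf 0 k j x) := by ring
          calc |Zf 0 k j x| = |Zf (om v 0 0) k j x - (Zf (om v 0 0) k j x - Zf 0 k j x)| := by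
                rw [← h9]
            _ ≤ _ := abs_sub _ _
        have h10 : 2 * η ≤ |Zf 0 k j x| := hj2
        linarith
    have h7 : ((Hh c φ τ u ρ k g x).ncard : ℝ) ≤ ({j : ℕ | j < 2 ^ u ∧
        η ≤ |Zf (om v 0 0) k j x - Zf 0 k j x|}.ncard : ℝ) +
        ({j : ℕ | j < 2 ^ u ∧ η ≤ |Zf (om v 0 0) k j x|}.ncard : ℝ) := by
      have h8 := (Set.ncard_le_ncard h6 ((fin_lt _ _).union (fin_lt _ _))).trans
        (Set.ncard_union_le _ _)
      exact_mod_cast h8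
    have h8 : m / 2 ≤ ({j : ℕ | j < 2 ^ u ∧ η ≤ |Zf (om v 0 0) k j x|}.ncard : ℝ) := by
      have hx' : m ≤ ((Hh c φ τ u ρ k g x).ncard : ℝ) := hx
      linarith
    obtain ⟨b, hb, hb'⟩ := los_pigeon hPS Zf u v η (m / 2) k x hv1 huv hη h8
    simp only [Set.mem_iUnion]
    refine ⟨b, hb, hxG, ?_⟩
    have h9 : m₁ = m / 2 / (3 * v + 2) := by
      rw [hm₁def]
      field_simp
    rw [h9]
    exact hb'
  calc ∑' k : ℤ, volume {x | x ∈ G ∧ m ≤ ((Hh c φ τ u ρ k g x).ncard : ℝ)}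
      ≤ ∑' k : ℤ, (volume {x | m / 2 ≤ ({j : ℕ | j < 2 ^ u ∧
          η ≤ |Zf (om v 0 0) k j x - Zf 0 k j x|}.ncard : ℝ)} +
          ∑ b ∈ Finset.range (3 * v + 2),
            volume {x | x ∈ G ∧ m₁ ≤ ((Pv Zf u v η b k x).ncard : ℝ)}) := by
        refine ENNReal.tsum_le_tsum fun k => ?_
        refine (measure_mono (hsub k)).trans ((measure_union_le _ _).trans ?_)
        gcongr
        exact measure_biUnion_finset_le (Finset.range (3 * v + 2)) _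
    _ = ∑' k : ℤ, volume {x | m / 2 ≤ ({j : ℕ | j < 2 ^ u ∧
          η ≤ |Zf (om v 0 0) k j x - Zf 0 k j x|}.ncard : ℝ)} +
          ∑ b ∈ Finset.range (3 * v + 2),
            ∑' k : ℤ, volume {x | x ∈ G ∧ m₁ ≤ ((Pv Zf u v η b k x).ncard : ℝ)} := by
        rw [ENNReal.tsum_add]
        congr 1
        exact los_tsum_finset _
    _ ≤ ENNReal.ofReal (C1 * B) * (∫⁻ x, ‖g x‖ₑ ^ 2) +
          ∑ _b ∈ Finset.range (3 * v + 2),
            ENNReal.ofReal ((C1 + C2 + C3 + C4) * B) * (∫⁻ x, ‖g x‖ₑ ^ 2) :=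
        add_le_add hdiff (Finset.sum_le_sum hcl)
    _ = ENNReal.ofReal (C1 * B + (3 * v + 2) * ((C1 + C2 + C3 + C4) * B)) *
          ∫⁻ x, ‖g x‖ₑ ^ 2 := by
        rw [Finset.sum_const, Finset.card_range, nsmul_eq_mul, ← mul_assoc, ← add_mul]
        congr 1
        rw [ENNReal.ofReal_add (by positivity) (by positivity),
          ENNReal.ofReal_mul (p := 3 * (v : ℝ) + 2) (by positivity)]
        congr 2
        rw [← ENNReal.ofReal_natCast]
        push_cast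
        rfl
    _ ≤ _ := by
        gcongr ENNReal.ofReal ?_ * _
        have hsplit : (2 : ℝ) ^ (tg p u t ρ + dl p * t) = B * (2 : ℝ) ^ (dl p * t) := by
          rw [hB, Real.rpow_add (by norm_num)]
        rw [hsplit]
        set R : ℝ := (2 : ℝ) ^ (dl p * t) with hR
        have hR1 : 1 ≤ R := by
          rw [hR]
          apply Real.one_le_rpow (by norm_num)
          positivity
        have hvR : 3 * (v : ℝ) + 2 ≤ (3 * Cρ + 4) * R := by
          have f1 : (v : ℝ) = (Cρ + 1) * u := by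
            rw [hvdef]
            push_cast
            ring
          have f2 : (2 : ℝ) ≤ u := by exact_mod_cast hu
          have f3 : (0 : ℝ) ≤ Cρ := Nat.cast_nonneg Cρ
          calc 3 * (v : ℝ) + 2 ≤ (3 * Cρ + 4) * u := by
                rw [f1]
                nlinarith
            _ ≤ (3 * Cρ + 4) * R := by gcongr
        set S : ℝ := C1 + C2 + C3 + C4 with hSdef
        have hS0 : 0 ≤ S := by positivity
        have hC1S : C1 ≤ S := by linarith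
        calc C1 * B + (3 * v + 2) * (S * B) ≤ S * (B * R) + ((3 * Cρ + 4) * R) * (S * B) := by
              have f4 : C1 * B ≤ S * (B * R) := by
                have : C1 * B ≤ S * B := mul_le_mul_of_nonneg_right hC1S hB0.le
                have f5 : S * B ≤ S * (B * R) := by
                  apply mul_le_mul_of_nonneg_left _ hS0
                  nlinarith
                linarith
              have f6 : (3 * (v : ℝ) + 2) * (S * B) ≤ ((3 * Cρ + 4) * R) * (S * B) :=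
                mul_le_mul_of_nonneg_right hvR (by positivity)
              linarith
          _ = (3 * Cρ + 5) * S * (B * R) := by ring
          _ ≤ (Cf + (3 * Cρ + 5) * S) * (B * R) := by
              apply mul_le_mul_of_nonneg_right _ (by positivity)
              linarith

end Pool.Agent.Helper51.EQ
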